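import Pool.Agent.Helper17_ZP3.DN3

/-!
Squad ZP3, row BDC: the exceptional residues.
-/

set_option autoImplicit false

namespace Pool.Agent.ZP3.H17

open Pool.Agent.ZPT Pool.Agent.ZP3

/-- a set of residues in which one coordinate is determined by the others -/
theorem card_det (n p : ℕ) (i : Fin n) (U : Finset (Fin n → ℤ)) (hU : U ⊆ cube n p)
    (h : ∀ a ∈ U, ∀ a' ∈ U, (∀ j, j ≠ i → a j = a' j) → a i = a' i) :
    U.card * p ≤ p ^ n := by
  classical
  have h := Finset.card_le_card_of_injOn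
    (s := U ×ˢ Finset.Ico (0 : ℤ) p) (t := cube n p)
    (fun w => Function.update w.1 i w.2) ?_ ?_
  · rw [Finset.card_product, card_cube] at h
    simpa using h
  · intro w hw
    rw [Finset.mem_coe, Finset.mem_product, Finset.mem_Ico] at hw
    have hc := mem_cube.mp (hU hw.1)
    rw [Finset.mem_coe, mem_cube]
    intro j
    show 0 ≤ Function.update w.1 i w.2 j ∧ Function.update w.1 i w.2 j < (p : ℤ)
    by_cases hj : j = i
    · subst hj
      rw [Function.update_self]
      exact hw.2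
    · rw [Function.update_of_ne hj]
      exact hc j
  · intro w hw w' hw' he
    rw [Finset.mem_coe, Finset.mem_product] at hw hw'
    have h2 : w.2 = w'.2 := by
      have := congrFun he i
      simpa using this
    have h3 : ∀ j, j ≠ i → w.1 j = w'.1 j := by
      intro j hj
      have := congrFun he j
      simpa [Function.update_of_ne hj] using this
    have h1 : w.1 = w'.1 := by
      funext j
      by_cases hj : j = i
      · rw [hj]
        exact h _ hw.1 _ hw'.1 h3
      · exact h3 j hj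
    exact Prod.ext h1 h2

section

variable {p : ℕ} (hp : p.Prime) {K : Type} [NormedField K] [CharZero K] [IsUltrametricDist K]
  (hE : Ext p K)

include hp hE in
theorem norm_int_lt_one (m : ℤ) : ‖((m : ℤ) : K)‖ < 1 ↔ (p : ℤ) ∣ m := by
  have := Fact.mk hp
  have h1 := hE (m : ℚ)
  have h2 : (((m : ℤ) : ℚ) : K) = ((m : ℤ) : K) := by norm_cast
  rw [h2] at h1
  rw [h1, ← padicNorm.int_lt_one_iff]
  exact_mod_cast Iff.rfl

include hp hE in
theorem key_inv {n : ℕ} {α : K} (hα : ‖α‖ ≤ 1) {a a' : Fin n → ℤ}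
    (h : ∀ i, (p : ℤ) ∣ a i - a' i) {i j : Fin n}
    (hij : ‖((a i : ℤ) : K) - α * ((a j : ℤ) : K)‖ < 1) :
    ‖((a' i : ℤ) : K) - α * ((a' j : ℤ) : K)‖ < 1 := by
  have e : ((a' i : ℤ) : K) - α * ((a' j : ℤ) : K) =
      (((a i : ℤ) : K) - α * ((a j : ℤ) : K)) +
        (-(((a i - a' i : ℤ)) : K) + α * (((a j - a' j : ℤ)) : K)) := by
    push_cast
    ring
  have h1 : ‖(((a i - a' i : ℤ)) : K)‖ < 1 := (norm_int_lt_one hp hE _).mpr (h i)
  have h2 : ‖(((a j - a' j : ℤ)) : K)‖ < 1 := (norm_int_lt_one hp hE _).mpr (h j)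
  have h3 : ‖α * (((a j - a' j : ℤ)) : K)‖ < 1 := by
    rw [norm_mul]
    calc ‖α‖ * ‖(((a j - a' j : ℤ)) : K)‖ ≤ 1 * ‖(((a j - a' j : ℤ)) : K)‖ :=
          mul_le_mul_of_nonneg_right hα (norm_nonneg _)
      _ < 1 := by rw [one_mul]; exact h2
  rw [e]
  refine lt_of_le_of_lt (IsUltrametricDist.norm_add_le_max _ _) (max_lt hij ?_)
  refine lt_of_le_of_lt (IsUltrametricDist.norm_add_le_max _ _) (max_lt ?_ h3)
  rw [norm_neg]
  exact h1

end

open Classical in
theorem bdc : BDCStmt := by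
  intro p hp K _ _ _ hE n S hS
  constructor
  · intro a a' h
    constructor
    · rintro ⟨i, j, hij, α, hα, hlt⟩
      exact ⟨i, j, hij, α, hα, key_inv hp hE (hS α hα) h hlt⟩
    · rintro ⟨i, j, hij, α, hα, hlt⟩
      refine ⟨i, j, hij, α, hα, key_inv hp hE (hS α hα) (fun l => ?_) hlt⟩
      rw [← neg_sub]
      exact (dvd_neg).mpr (h l)
  · have hp0 : (0 : ℝ) < p := by exact_mod_cast hp.pos
    set U : (Fin n × Fin n) × K → Finset (Fin n → ℤ) := fun x =>
      (cube n p).filter fun a => x.1.1 ≠ x.1.2 ∧ ‖((a x.1.1 : ℤ) : K) - x.2 * ((a x.1.2 : ℤ) : K)‖ < 1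
      with hU
    have hUc : ∀ x : (Fin n × Fin n) × K, ((U x).card : ℝ) ≤ (p : ℝ) ^ n / p := by
      intro x
      rw [le_div_iff₀ hp0]
      have h1 := card_det n p x.1.1 (U x) (Finset.filter_subset _ _) ?_
      · exact_mod_cast h1
      · intro a ha a' ha' hl
        rw [hU, Finset.mem_filter] at ha ha'
        obtain ⟨hc, hne, hlt⟩ := ha
        obtain ⟨hc', -, hlt'⟩ := ha'
        have h2 : a x.1.2 = a' x.1.2 := hl _ (Ne.symm hne)
        have h3 : ‖(((a x.1.1 - a' x.1.1 : ℤ)) : K)‖ < 1 := by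
          have e : (((a x.1.1 - a' x.1.1 : ℤ)) : K) =
              (((a x.1.1 : ℤ) : K) - x.2 * ((a x.1.2 : ℤ) : K)) +
                -(((a' x.1.1 : ℤ) : K) - x.2 * ((a' x.1.2 : ℤ) : K)) := by
            rw [h2]
            push_cast
            ring
          rw [e]
          refine lt_of_le_of_lt (IsUltrametricDist.norm_add_le_max _ _) (max_lt hlt ?_)
          rw [norm_neg]
          exact hlt'
        have h4 := (norm_int_lt_one hp hE _).mp h3
        have h5 := mem_cube.mp hc x.1.1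
        have h6 := mem_cube.mp hc' x.1.1
        obtain ⟨k, hk⟩ := h4
        have h7 : k = 0 := by
          have h8 : (0 : ℤ) < p := by exact_mod_cast hp.pos
          have h9 : (p : ℤ) * k < p * 1 := by linarith
          have h10 : (p : ℤ) * (-1) < p * k := by linarith
          have h11 := lt_of_mul_lt_mul_left h9 h8.le
          have h12 := lt_of_mul_lt_mul_left h10 h8.le
          omega
        rw [h7, mul_zero] at hk
        linarith
    have hset : ({a | (∃ i j, i ≠ j ∧ ∃ α ∈ S, ‖((a i : ℤ) : K) - α * ((a j : ℤ) : K)‖ < 1) ∧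
        ∀ i, 0 ≤ a i ∧ a i < p} : Set (Fin n → ℤ)) =
        (((Finset.univ ×ˢ S).biUnion U : Finset (Fin n → ℤ)) : Set (Fin n → ℤ)) := by
      ext a
      rw [Finset.mem_coe, Finset.mem_biUnion]
      constructor
      · rintro ⟨⟨i, j, hij, α, hα, hlt⟩, hc⟩
        refine ⟨((i, j), α), Finset.mem_product.mpr ⟨Finset.mem_univ _, hα⟩, ?_⟩
        rw [hU, Finset.mem_filter]
        exact ⟨mem_cube.mpr hc, hij, hlt⟩
      · rintro ⟨x, hx, ha⟩
        rw [hU, Finset.mem_filter] at ha
        exact ⟨⟨x.1.1, x.1.2, ha.2.1, x.2, (Finset.mem_product.mp hx).2, ha.2.2⟩,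
          mem_cube.mp ha.1⟩
    rw [hset, Set.ncard_coe_finset]
    have h1 : (((Finset.univ ×ˢ S).biUnion U : Finset (Fin n → ℤ)).card : ℝ) ≤
        ∑ x ∈ (Finset.univ : Finset (Fin n × Fin n)) ×ˢ S, ((U x).card : ℝ) := by
      exact_mod_cast Finset.card_biUnion_le
    have h2 : ∑ x ∈ (Finset.univ : Finset (Fin n × Fin n)) ×ˢ S, ((U x).card : ℝ) ≤
        ((n : ℝ) ^ 2 * S.card) * ((p : ℝ) ^ n / p) := by
      refine (Finset.sum_le_sum fun x _ => hUc x).trans (le_of_eq ?_)
      rw [Finset.sum_const, Finset.card_product, nsmul_eq_mul]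
      simp only [Finset.card_univ, Fintype.card_prod, Fintype.card_fin]
      push_cast
      ring
    calc (((Finset.univ ×ˢ S).biUnion U : Finset (Fin n → ℤ)).card : ℝ) * p
        ≤ ((n : ℝ) ^ 2 * S.card) * ((p : ℝ) ^ n / p) * p :=
          mul_le_mul_of_nonneg_right (h1.trans h2) hp0.le
      _ = (n : ℝ) ^ 2 * (S.card : ℝ) * (p : ℝ) ^ n := by
          field_simp

end Pool.Agent.ZP3.H17
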