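import Pool.Agent.ZP3.StmtsP
import Pool.Agent.Helper88_ZPT.Dn

/-!
Squad ZP3, row DN3: density with exceptional residues.
-/

set_option autoImplicit false

namespace Pool.Agent.ZP3.H17

open Pool.Agent.ZPT Pool.Agent.ZP3

/-- the cube of residues -/
noncomputable def cube (n p : ℕ) : Finset (Fin n → ℤ) := Fintype.piFinset fun _ : Fin n => Finset.Ico (0 : ℤ) p

theorem mem_cube {n p : ℕ} {a : Fin n → ℤ} : a ∈ cube n p ↔ ∀ i, 0 ≤ a i ∧ a i < p := by
  unfold cube
  rw [Fintype.mem_piFinset]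
  simp only [Finset.mem_Ico]

theorem card_cube (n p : ℕ) : (cube n p).card = p ^ n := by
  unfold cube
  rw [Fintype.card_piFinset]
  simp

/-- the residues with a zero coordinate -/
theorem card_zero (n p : ℕ) (i : Fin n) :
    ((cube n p).filter fun a => a i = 0).card * p ≤ p ^ n := by
  classical
  have h := Finset.card_le_card_of_injOn
    (s := ((cube n p).filter fun a => a i = 0) ×ˢ Finset.Ico (0 : ℤ) p) (t := cube n p)
    (fun w => Function.update w.1 i w.2) ?_ ?_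
  · rw [Finset.card_product, card_cube] at h
    simpa using h
  · intro w hw
    rw [Finset.mem_coe, Finset.mem_product, Finset.mem_filter, mem_cube, Finset.mem_Ico] at hw
    rw [Finset.mem_coe, mem_cube]
    intro j
    show 0 ≤ Function.update w.1 i w.2 j ∧ Function.update w.1 i w.2 j < (p : ℤ)
    by_cases hj : j = i
    · subst hj
      rw [Function.update_self]
      exact hw.2
    · rw [Function.update_of_ne hj]
      exact hw.1.1 j
  · intro w hw w' hw' he
    rw [Finset.mem_coe, Finset.mem_product, Finset.mem_filter] at hw hw'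
    have h2 : w.2 = w'.2 := by
      have := congrFun he i
      simpa using this
    have h1 : w.1 = w'.1 := by
      funext j
      by_cases hj : j = i
      · subst hj
        rw [hw.1.2, hw'.1.2]
      · have := congrFun he j
        simpa [Function.update_of_ne hj] using this
    exact Prod.ext h1 h2

/-- the number of points of the box with residues in a given set -/
theorem card_res (n p H : ℕ) (hp : 0 < p) (hpH : p ≤ H) (S : Set (Fin n → ℤ))
    (hS : ∀ a a' : Fin n → ℤ, (∀ i, (p : ℤ) ∣ a i - a' i) → (a ∈ S ↔ a' ∈ S))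
    (A : Finset (Fin n → ℤ)) (hA : ∀ a ∈ A, (∀ i, |a i| ≤ H) ∧ a ∈ S)
    (R : Finset (Fin n → ℤ)) (hR : ∀ r ∈ cube n p, r ∈ S → r ∈ R) :
    (A.card : ℝ) ≤ R.card * (4 * ((H : ℝ) / p)) ^ n := by
  classical
  have hpz : (0 : ℤ) < p := by exact_mod_cast hp
  set q : ℕ := H / p with hq
  have hq1 : 1 ≤ q := (Nat.one_le_div_iff hp).mpr hpH
  have hqe : (q : ℤ) = (H : ℤ) / (p : ℤ) := by rw [hq]; exact Int.natCast_div H p
  have h := Finset.card_le_card_of_injOn (s := A)
    (t := R ×ˢ (Fintype.piFinset fun _ : Fin n => Finset.Icc (-(q : ℤ) - 1) (q : ℤ)))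
    (fun a => ((fun i => a i % (p : ℤ)), fun i => a i / (p : ℤ))) ?_ ?_
  · rw [Finset.card_product, Fintype.card_piFinset] at h
    simp only [Finset.prod_const, Finset.card_univ, Fintype.card_fin, Int.card_Icc] at h
    have h1 : ((q : ℤ) + 1 - (-(q : ℤ) - 1)).toNat = 2 * q + 2 := by omega
    rw [h1] at h
    have h2 : (A.card : ℝ) ≤ R.card * (2 * (q : ℝ) + 2) ^ n := by exact_mod_cast h
    refine h2.trans (mul_le_mul_of_nonneg_left ?_ (Nat.cast_nonneg _))
    apply pow_le_pow_left₀ (by positivity)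
    have h3 : (q : ℝ) ≤ (H : ℝ) / p := by rw [hq]; exact Nat.cast_div_le
    have h4 : (1 : ℝ) ≤ (q : ℝ) := by exact_mod_cast hq1
    linarith
  · intro a ha
    obtain ⟨h1, h2⟩ := hA a ha
    rw [Finset.mem_coe, Finset.mem_product, Fintype.mem_piFinset]
    constructor
    · apply hR
      · rw [mem_cube]
        intro i
        exact ⟨Int.emod_nonneg _ hpz.ne', Int.emod_lt_of_pos _ hpz⟩
      · refine (hS a _ fun i => ?_).mp h2
        show (p : ℤ) ∣ a i - a i % (p : ℤ)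
        exact Int.dvd_self_sub_emod
    · intro i
      show a i / (p : ℤ) ∈ Finset.Icc (-(q : ℤ) - 1) (q : ℤ)
      have h3 := abs_le.mp (h1 i)
      rw [Finset.mem_Icc]
      constructor
      · have h4 : (H : ℤ) < (p : ℤ) * (q + 1) := by
          rw [hqe, mul_comm]
          exact Int.lt_ediv_add_one_mul_self _ hpz
        have h5 : (-(q : ℤ) - 1) * p ≤ a i := by nlinarith
        exact Int.le_ediv_of_mul_le hpz h5
      · rw [hqe]
        exact Int.ediv_le_ediv hpz h3.2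
  · intro a _ b _ he
    funext i
    have h1 : a i % (p : ℤ) = b i % (p : ℤ) := congrFun (congrArg Prod.fst he) i
    have h2 : a i / (p : ℤ) = b i / (p : ℤ) := congrFun (congrArg Prod.snd he) i
    rw [← Int.mul_ediv_add_emod (a i) p, ← Int.mul_ediv_add_emod (b i) p, h1, h2]

/-- multiples in an interval -/
theorem card_mult (m H : ℕ) (hm : 0 < m) :
    (((Finset.Icc (1 : ℤ) H).filter fun N => (m : ℤ) ∣ N).card : ℝ) ≤ (H : ℝ) / m := by
  classical
  have h := Finset.card_le_card_of_injOn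
    (s := (Finset.Icc (1 : ℤ) H).filter fun N => (m : ℤ) ∣ N) (t := Finset.Icc (1 : ℤ) ((H / m : ℕ) : ℤ))
    (fun N => N / (m : ℤ)) ?_ ?_
  · rw [Int.card_Icc] at h
    have h1 : (((H / m : ℕ) : ℤ) + 1 - 1).toNat = H / m := by
      rw [add_sub_cancel_right]
      exact Int.toNat_natCast _
    rw [h1] at h
    calc (((Finset.Icc (1 : ℤ) H).filter fun N => (m : ℤ) ∣ N).card : ℝ) ≤ ((H / m : ℕ) : ℝ) := by
          exact_mod_cast h
      _ ≤ (H : ℝ) / m := Nat.cast_div_le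
  · intro N hN
    rw [Finset.mem_coe, Finset.mem_filter, Finset.mem_Icc] at hN
    obtain ⟨⟨h1, h2⟩, k, rfl⟩ := hN
    have hmz : (0 : ℤ) < m := by exact_mod_cast hm
    rw [Finset.mem_coe, Finset.mem_Icc]
    show 1 ≤ (m : ℤ) * k / (m : ℤ) ∧ (m : ℤ) * k / (m : ℤ) ≤ ((H / m : ℕ) : ℤ)
    rw [Int.mul_ediv_cancel_left _ hmz.ne', Int.natCast_div]
    refine ⟨?_, (Int.le_ediv_iff_mul_le hmz).mpr (by linarith [mul_comm (m : ℤ) k])⟩
    by_contra hk
    push Not at hk
    have : (m : ℤ) * k ≤ 0 := by nlinarith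
    omega
  · intro N hN N' hN' he
    rw [Finset.mem_coe, Finset.mem_filter] at hN hN'
    obtain ⟨-, k, rfl⟩ := hN
    obtain ⟨-, k', rfl⟩ := hN'
    have hmz : (0 : ℤ) < m := by exact_mod_cast hm
    have h1 : (m : ℤ) * k / (m : ℤ) = (m : ℤ) * k' / (m : ℤ) := he
    rw [Int.mul_ediv_cancel_left _ hmz.ne', Int.mul_ediv_cancel_left _ hmz.ne'] at h1
    rw [h1]

open Classical in
theorem dn3 : DN3Stmt := by
  intro n p₀ C ε hε B hB hBc
  -- the constant is nonnegative
  have hC : 0 ≤ C := by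
    obtain ⟨p, hp1, hp2⟩ := Nat.exists_infinite_primes p₀
    have h1 := hBc p hp2 hp1
    have h2 : (0 : ℝ) < (p : ℝ) ^ n := pow_pos (by exact_mod_cast hp2.pos) n
    have h3 : (0 : ℝ) ≤ C * (p : ℝ) ^ n := le_trans (by positivity) h1
    by_contra hneg
    push Not at hneg
    nlinarith
  set K : ℝ := 3 ^ n + 4 ^ n * (n + C) with hK
  have hK0 : 0 ≤ K := by positivity
  -- the threshold
  obtain ⟨p₁, hp₁⟩ := exists_nat_ge (max (p₀ : ℝ) (4 * K / ε))
  have hp₁0 : p₀ ≤ p₁ := by exact_mod_cast (le_max_left _ _).trans hp₁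
  have hp₁K : 4 * K / ε ≤ p₁ := (le_max_right _ _).trans hp₁
  have hp₁K' : K * (2 / ((p₁ : ℝ) + 1)) ≤ ε / 2 := by
    rw [div_le_iff₀ hε] at hp₁K
    rw [mul_div_assoc', div_le_iff₀ (by positivity)]
    nlinarith
  obtain ⟨H₀, hH₀⟩ := Pool.Agent.ZPT.H88.dn 0 (p₁ + 1) (ε / (2 * 3 ^ n)) (by positivity)
  refine ⟨max H₀ 1, fun H hH A hA => ?_⟩
  have hHH : H₀ ≤ H := (le_max_left _ _).trans hH
  have hH1 : 1 ≤ H := (le_max_right _ _).trans hH
  have hHr : (1 : ℝ) ≤ H := by exact_mod_cast hH1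
  have hdn := hH₀ H hHH
  -- the cube
  set X : Finset (Fin n → ℤ) := Fintype.piFinset fun _ : Fin n => Finset.Icc (-(H : ℤ)) H with hX
  have hXc : (X.card : ℝ) ≤ 3 ^ n * (H : ℝ) ^ n := by
    rw [hX, Fintype.card_piFinset]
    simp only [Finset.prod_const, Finset.card_univ, Fintype.card_fin, Int.card_Icc]
    have h1 : ((H : ℤ) + 1 - -(H : ℤ)).toNat = 2 * H + 1 := by omega
    rw [h1, ← mul_pow]
    push_cast
    apply pow_le_pow_left₀ (by positivity)
    linarith
  -- the three kinds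
  set N1 : Finset ℤ := (Finset.Icc (1 : ℤ) H).filter fun N =>
    ¬ ∃ p : ℕ, p.Prime ∧ p₁ + 1 ≤ p ∧ (p : ℤ) ∣ N with hN1
  have hN1c : (N1.card : ℝ) ≤ ε / (2 * 3 ^ n) * (H : ℝ) := by
    rw [zero_add, pow_one] at hdn
    refine le_trans ?_ hdn
    have h := Finset.card_le_card_of_injOn (s := N1)
      (t := (box 0 H).filter fun w => ¬ ∃ p : ℕ, p.Prime ∧ p₁ + 1 ≤ p ∧ (p : ℤ) ∣ w.2 ∧
        ∀ i, ¬ (p : ℤ) ∣ w.1 i)
      (fun N => ((fun i => i.elim0), N)) ?_ ?_
    · exact_mod_cast h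
    · intro N hN
      rw [hN1, Finset.mem_coe, Finset.mem_filter] at hN
      rw [Finset.mem_coe, Finset.mem_filter]
      constructor
      · unfold box
        rw [Finset.mem_product, Fintype.mem_piFinset]
        exact ⟨fun i => i.elim0, hN.1⟩
      · rintro ⟨p, h1, h2, h3, -⟩
        exact hN.2 ⟨p, h1, h2, h3⟩
    · intro N _ N' _ he
      exact congrArg Prod.snd he
  -- residues
  set S : ℕ → Set (Fin n → ℤ) := fun p => {a | (∃ i, (p : ℤ) ∣ a i) ∨ a ∈ B p} with hS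
  have hSinv : ∀ p : ℕ, p.Prime → ∀ a a' : Fin n → ℤ, (∀ i, (p : ℤ) ∣ a i - a' i) →
      (a ∈ S p ↔ a' ∈ S p) := by
    intro p hp a a' h
    have h1 : (∃ i, (p : ℤ) ∣ a i) ↔ ∃ i, (p : ℤ) ∣ a' i := by
      constructor
      · rintro ⟨i, hi⟩
        exact ⟨i, (dvd_sub_right hi).mp (h i)⟩
      · rintro ⟨i, hi⟩
        refine ⟨i, ?_⟩
        have := dvd_add (h i) hi
        rwa [sub_add_cancel] at this
    show ((∃ i, (p : ℤ) ∣ a i) ∨ a ∈ B p) ↔ ((∃ i, (p : ℤ) ∣ a' i) ∨ a' ∈ B p)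
    rw [h1, hB p hp a a' h]
  have hSc : ∀ p : ℕ, p.Prime → p₀ ≤ p → p ≤ H →
      ((X.filter fun a => a ∈ S p).card : ℝ) ≤ 4 ^ n * (n + C) * (H : ℝ) ^ n / p := by
    intro p hp hpp hpH
    have hp0 : (0 : ℝ) < p := by exact_mod_cast hp.pos
    set R1 : Finset (Fin n → ℤ) := Finset.univ.biUnion fun i : Fin n =>
      (cube n p).filter fun a => a i = 0 with hR1
    set R2 : Finset (Fin n → ℤ) := (cube n p).filter fun a => a ∈ B p with hR2
    have hR1c : (R1.card : ℝ) ≤ n * ((p : ℝ) ^ n / p) := by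
      have h1 : (R1.card : ℝ) ≤ ∑ i : Fin n, (((cube n p).filter fun a => a i = 0).card : ℝ) := by
        exact_mod_cast Finset.card_biUnion_le
      refine h1.trans ?_
      calc ∑ i : Fin n, (((cube n p).filter fun a => a i = 0).card : ℝ)
          ≤ ∑ _i : Fin n, (p : ℝ) ^ n / p := by
            refine Finset.sum_le_sum fun i _ => ?_
            rw [le_div_iff₀ hp0]
            exact_mod_cast card_zero n p i
        _ = n * ((p : ℝ) ^ n / p) := by simp
    have hR2c : (R2.card : ℝ) ≤ C * ((p : ℝ) ^ n / p) := by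
      have h1 := hBc p hp hpp
      have h2 : ({a ∈ B p | ∀ i, 0 ≤ a i ∧ a i < p} : Set (Fin n → ℤ)) = (R2 : Set (Fin n → ℤ)) := by
        ext a
        rw [hR2]
        simp only [Set.mem_setOf_eq, Finset.coe_filter, mem_cube]
        exact ⟨fun h => ⟨h.2, h.1⟩, fun h => ⟨h.2, h.1⟩⟩
      rw [h2, Set.ncard_coe_finset] at h1
      rw [mul_div_assoc', le_div_iff₀ hp0]
      exact h1
    have h3 := card_res n p H hp.pos hpH (S p) (hSinv p hp) (X.filter fun a => a ∈ S p)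
      (fun a ha => by
        rw [Finset.mem_filter, hX, Fintype.mem_piFinset] at ha
        exact ⟨fun i => abs_le.mpr (Finset.mem_Icc.mp (ha.1 i)), ha.2⟩) (R1 ∪ R2)
      (fun r hr hrS => by
        rw [Finset.mem_union]
        rcases hrS with ⟨i, hi⟩ | hrB
        · left
          rw [hR1, Finset.mem_biUnion]
          refine ⟨i, Finset.mem_univ _, Finset.mem_filter.mpr ⟨hr, ?_⟩⟩
          have h4 := mem_cube.mp hr i
          exact Int.eq_zero_of_dvd_of_nonneg_of_lt h4.1 h4.2 hi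
        · right
          exact Finset.mem_filter.mpr ⟨hr, hrB⟩)
    have h5 : (((R1 ∪ R2).card : ℕ) : ℝ) ≤ (n + C) * ((p : ℝ) ^ n / p) := by
      have h6 : (((R1 ∪ R2).card : ℕ) : ℝ) ≤ R1.card + R2.card := by
        exact_mod_cast Finset.card_union_le R1 R2
      rw [add_mul]
      linarith
    refine h3.trans ((mul_le_mul_of_nonneg_right h5 (by positivity)).trans (le_of_eq ?_))
    rw [mul_pow, div_pow]
    field_simp
  -- the sum over the primes
  set I : Finset ℕ := (Finset.Ioo p₁ (H + 1)).filter fun p => p.Prime with hI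
  set M2 : ℕ → Finset ((Fin n → ℤ) × ℤ) := fun p =>
    X ×ˢ ((Finset.Icc (1 : ℤ) H).filter fun N => ((p ^ 2 : ℕ) : ℤ) ∣ N) with hM2
  set M3 : ℕ → Finset ((Fin n → ℤ) × ℤ) := fun p =>
    (X.filter fun a => a ∈ S p) ×ˢ ((Finset.Icc (1 : ℤ) H).filter fun N => (p : ℤ) ∣ N) with hM3
  have hsub : A ⊆ (X ×ˢ N1) ∪ I.biUnion fun p => M2 p ∪ M3 p := by
    intro w hw
    obtain ⟨h1, h2, h3, h4⟩ := hA w hw
    have hwX : w.1 ∈ X := by
      rw [hX, Fintype.mem_piFinset]
      exact fun i => Finset.mem_Icc.mpr (abs_le.mp (h1 i))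
    have hwN : w.2 ∈ Finset.Icc (1 : ℤ) H := Finset.mem_Icc.mpr ⟨h2, h3⟩
    rw [Finset.mem_union]
    by_cases hN : w.2 ∈ N1
    · left
      exact Finset.mem_product.mpr ⟨hwX, hN⟩
    · right
      rw [hN1, Finset.mem_filter] at hN
      push Not at hN
      obtain ⟨p, hp1, hp2, hp3⟩ := hN hwN
      have hpH : p < H + 1 := by
        have h5 : (p : ℤ) ≤ w.2 := Int.le_of_dvd (by linarith) hp3
        have h6 : (p : ℤ) ≤ H := h5.trans h3
        omega
      rw [Finset.mem_biUnion]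
      refine ⟨p, ?_, ?_⟩
      · rw [hI, Finset.mem_filter, Finset.mem_Ioo]
        exact ⟨⟨by omega, hpH⟩, hp1⟩
      · rw [Finset.mem_union]
        by_cases hsq : ((p : ℤ) ^ 2 ∣ w.2)
        · left
          refine Finset.mem_product.mpr ⟨hwX, Finset.mem_filter.mpr ⟨hwN, ?_⟩⟩
          push_cast
          exact hsq
        · right
          refine Finset.mem_product.mpr ⟨Finset.mem_filter.mpr ⟨hwX, ?_⟩,
            Finset.mem_filter.mpr ⟨hwN, hp3⟩⟩
          by_contra hcon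
          have h7 : ¬ ((∃ i, (p : ℤ) ∣ w.1 i) ∨ w.1 ∈ B p) := hcon
          push Not at h7
          exact h4 ⟨p, hp1, by omega, hp3, hsq, h7.1, h7.2⟩
  have hcard : (A.card : ℝ) ≤ X.card * N1.card + ∑ p ∈ I, ((M2 p).card + (M3 p).card : ℝ) := by
    have h1 : A.card ≤ X.card * N1.card + ∑ p ∈ I, ((M2 p).card + (M3 p).card) := by
      refine (Finset.card_le_card hsub).trans ((Finset.card_union_le _ _).trans ?_)
      rw [Finset.card_product]
      refine Nat.add_le_add_left (Finset.card_biUnion_le.trans ?_) _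
      exact Finset.sum_le_sum fun p _ => Finset.card_union_le _ _
    exact_mod_cast h1
  have hterm : ∀ p ∈ I, ((M2 p).card + (M3 p).card : ℝ) ≤ K * (H : ℝ) ^ (n + 1) * ((p : ℝ) ^ 2)⁻¹ := by
    intro p hp
    rw [hI, Finset.mem_filter, Finset.mem_Ioo] at hp
    obtain ⟨⟨h1, h2⟩, hpp⟩ := hp
    have hp0 : (0 : ℝ) < p := by exact_mod_cast hpp.pos
    have h3 := card_mult (p ^ 2) H (pow_pos hpp.pos 2)
    have h4 := card_mult p H hpp.pos
    have h5 := hSc p hpp (by omega) (by omega)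
    have e2 : ((M2 p).card : ℝ) ≤ 3 ^ n * (H : ℝ) ^ n * ((H : ℝ) / (p : ℝ) ^ 2) := by
      rw [hM2]
      simp only [Finset.card_product, Nat.cast_mul]
      push_cast at h3
      exact mul_le_mul hXc h3 (Nat.cast_nonneg _) (by positivity)
    have e3 : ((M3 p).card : ℝ) ≤ 4 ^ n * (n + C) * (H : ℝ) ^ n / p * ((H : ℝ) / p) := by
      rw [hM3]
      simp only [Finset.card_product, Nat.cast_mul]
      exact mul_le_mul h5 h4 (Nat.cast_nonneg _) (by positivity)
    refine (add_le_add e2 e3).trans (le_of_eq ?_)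
    rw [hK, pow_succ]
    field_simp
    ring
  have hsum : ∑ p ∈ I, ((M2 p).card + (M3 p).card : ℝ) ≤ ε / 2 * (H : ℝ) ^ (n + 1) := by
    have h1 : ∑ p ∈ I, ((M2 p).card + (M3 p).card : ℝ) ≤
        K * (H : ℝ) ^ (n + 1) * ∑ p ∈ Finset.Ioo p₁ (H + 1), ((p : ℝ) ^ 2)⁻¹ := by
      rw [Finset.mul_sum]
      refine (Finset.sum_le_sum hterm).trans ?_
      refine Finset.sum_le_sum_of_subset_of_nonneg (Finset.filter_subset _ _) fun p _ _ => ?_
      positivity
    have h2 := sum_Ioo_inv_sq_le (α := ℝ) p₁ (H + 1)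
    have h3 : (0 : ℝ) ≤ (H : ℝ) ^ (n + 1) := by positivity
    calc ∑ p ∈ I, ((M2 p).card + (M3 p).card : ℝ)
        ≤ K * (H : ℝ) ^ (n + 1) * ∑ p ∈ Finset.Ioo p₁ (H + 1), ((p : ℝ) ^ 2)⁻¹ := h1
      _ ≤ K * (H : ℝ) ^ (n + 1) * (2 / ((p₁ : ℝ) + 1)) :=
          mul_le_mul_of_nonneg_left h2 (by positivity)
      _ = K * (2 / ((p₁ : ℝ) + 1)) * (H : ℝ) ^ (n + 1) := by ring
      _ ≤ ε / 2 * (H : ℝ) ^ (n + 1) := mul_le_mul_of_nonneg_right hp₁K' h3
  have hfirst : (X.card : ℝ) * N1.card ≤ ε / 2 * (H : ℝ) ^ (n + 1) := by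
    calc (X.card : ℝ) * N1.card ≤ (3 ^ n * (H : ℝ) ^ n) * (ε / (2 * 3 ^ n) * (H : ℝ)) :=
          mul_le_mul hXc hN1c (Nat.cast_nonneg _) (by positivity)
      _ = ε / 2 * (H : ℝ) ^ (n + 1) := by
          rw [pow_succ]
          field_simp
  linarith

end Pool.Agent.ZP3.H17
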